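import Pool.Agent.Lib_helper61.TT.Defs

/-!
# Galois representations with the traces of character sums on the weighted plane `P(1,1,k)`
(MP_97f789_ag): definitions
-/

set_option autoImplicit false

namespace Pool.Agent.TP

open NumberField Pool.Agent.TT

/-- The sum over all `(x₀, x₁, x₂)` in `F ^ 3` of the symbols of
`∏ (f_i0 x₀ + f_i1 x₁) ^ (a_i) * ∏ (e_j x₂ - ∑ g_jl x₀ ^ l x₁ ^ (k - l)) ^ (b_j)`. -/
noncomputable def charSum {K : Type} [Field K] {F : Type} [Field F] [Fintype F] {v n : ℕ} (m k : ℕ)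
    (ζ : 𝓞 K) (f : Fin v → Fin 2 → 𝓞 K) (a : Fin v → ℕ) (e : Fin n → 𝓞 K)
    (g : Fin n → Fin (k + 1) → 𝓞 K) (b : Fin n → ℕ) (φ : 𝓞 K →+* F) : 𝓞 K :=
  ∑ x : Fin 3 → F, residueSymbol m ζ φ ((∏ i, (φ (f i 0) * x 0 + φ (f i 1) * x 1) ^ a i) *
    ∏ j, (φ (e j) * x 2 - ∑ l : Fin (k + 1), φ (g j l) * (x 0 ^ (l : ℕ) * x 1 ^ (k - (l : ℕ)))) ^
      b j)

/-- The representation `ρ` of the absolute Galois group `Gal(Qbar/K)` has the traces given by the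
character sums: for all prime ideals `𝔓` of the ring of algebraic integers above almost all primes
`p`, all finite fields `F` that contain the residue field of `K` at `𝔓` and all elements `σ` of
the Galois group that induce `x ↦ x ^ |F|` modulo `𝔓`, the trace of `σ⁻¹` (a power of a
geometric Frobenius element) is the character sum divided by `|F| - 1`. -/
def HasTraces {K : Type} [Field K] [NumberField K] [Algebra K Qbar] {ℓ : ℕ} [Fact ℓ.Prime]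
    {V : Type} [AddCommGroup V] [Module (PadicAlgCl ℓ) V] {v n : ℕ}
    (ρ : Representation (PadicAlgCl ℓ) (Qbar ≃ₐ[K] Qbar) V) (ι : K →+* PadicAlgCl ℓ) (m k : ℕ)
    (ζ : 𝓞 K) (f : Fin v → Fin 2 → 𝓞 K) (a : Fin v → ℕ) (e : Fin n → 𝓞 K)
    (g : Fin n → Fin (k + 1) → 𝓞 K) (b : Fin n → ℕ) : Prop :=
  ∃ B : Finset ℕ, ∀ p : ℕ, p.Prime → p ∉ B → ∀ 𝔓 : Ideal (𝓞 Qbar), 𝔓.IsPrime →
    (p : 𝓞 Qbar) ∈ 𝔓 → ∀ (F : Type) [Field F] [Fintype F] (φ : 𝓞 K →+* F),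
      (∀ x : 𝓞 K, φ x = 0 ↔ algebraMap (𝓞 K) (𝓞 Qbar) x ∈ 𝔓) →
      ∀ σ : Qbar ≃ₐ[K] Qbar, (∀ x y : 𝓞 Qbar, (y : Qbar) = σ x → y - x ^ Fintype.card F ∈ 𝔓) →
        ((Fintype.card F : PadicAlgCl ℓ) - 1) * LinearMap.trace (PadicAlgCl ℓ) V (ρ σ⁻¹) =
          ι (charSum m k ζ f a e g b φ)

end Pool.Agent.TP
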