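import Pool.Agent.Lib_helper61.TP.Defs
import Pool.Agent.Lib_helper61.TT.LO
import Pool.Agent.Lib_helper7.SLP.Plane

/-!
# The local bound for the character sums on the weighted plane
-/

set_option autoImplicit false

namespace Pool.Agent.TP

open Finset NumberField Pool.Agent.TT

/-- The power residue symbol in terms of the Teichmueller character. -/
theorem lb_symbol {K : Type} [Field K] {p : ℕ} [hp : Fact p.Prime] {m : ℕ} (hm : 2 ≤ m)
    {ζ : 𝓞 K} (hζ : IsPrimitiveRoot ζ m) {u v : ℕ} (hu : u.Coprime m) (huv : u * v ≡ 1 [MOD m])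
    (hmp : m ∣ p - 1) (τ : 𝓞 K →+* PadicAlgCl p) (hτ : Function.Injective τ)
    {r : ℕ} {F : Type} [Field F] [Fintype F]
    (hcard : Fintype.card F = p ^ r) (φ : 𝓞 K →+* F) {n0 : ℕ} (hn0 : φ ζ = n0)
    (hn1 : ‖τ ζ ^ v - n0‖ < 1) {ω : MulChar F (PadicAlgCl p)} (hω : IsTeich ω) (y : F) :
    τ (residueSymbol m ζ φ y) = ω y ^ (u * ((p ^ r - 1) / m)) := by
  classical
  have hp1 := hp.out.one_lt
  have hr : r ≠ 0 := by
    rintro rfl
    rw [pow_zero] at hcard
    have := Fintype.one_lt_card (α := F)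
    omega
  have hpr : 1 < p ^ r := Nat.one_lt_pow hr hp1
  set e : ℕ := p ^ r - 1 with he
  have he0 : 0 < e := by omega
  have hcop : Nat.Coprime e p := by
    have h1 : Nat.Coprime e (p ^ r) := by
      have h2 : p ^ r = e + 1 := by omega
      rw [h2]
      exact (Nat.coprime_self_add_right).mpr (Nat.coprime_one_right e)
    exact Nat.Coprime.coprime_dvd_right (dvd_pow_self p hr) h1
  have hpe : p - 1 ∣ e := Nat.sub_one_dvd_pow_sub_one p r
  have hme : m ∣ e := hmp.trans hpe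
  set q' : ℕ := e / m with hq'
  have hq'm : q' * m = e := Nat.div_mul_cancel hme
  have hq'0 : 0 < q' := Nat.pos_of_ne_zero (by
    rintro h
    rw [h, zero_mul] at hq'm
    omega)
  have hu0 : 0 < u := by
    rcases Nat.eq_zero_or_pos u with h | h
    · rw [h, Nat.coprime_zero_left] at hu
      omega
    · exact h
  have hunit : ∀ y : F, y ≠ 0 → ω y ^ e = 1 := by
    intro y hy
    rw [← map_pow]
    have h2 : y ^ e = 1 := by
      have := FiniteField.pow_card_sub_one_eq_one y hy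
      rw [hcard] at this
      exact this
    rw [h2, map_one]
  have hτm : τ ζ ^ m = 1 := by rw [← map_pow, hζ.pow_eq_one, map_one]
  have hφm : φ ζ ^ m = 1 := by rw [← map_pow, hζ.pow_eq_one, map_one]
  have hφ0 : φ ζ ≠ 0 := by
    intro h
    rw [h, zero_pow (by omega)] at hφm
    exact zero_ne_one hφm
  have hωζ : ω (φ ζ) = τ ζ ^ v := by
    apply lo_unique hcop
    · exact hunit _ hφ0
    · rw [← pow_mul, mul_comm, ← hq'm, mul_comm q' m, mul_assoc, pow_mul, hτm, one_pow]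
    · have h1 := gn_natCast hω n0
      rw [← hn0] at h1
      have h2 : ω (φ ζ) - τ ζ ^ v = (ω (φ ζ) - n0) - (τ ζ ^ v - n0) := by ring
      rw [h2]
      exact lt_of_le_of_lt (gn_sub_le _ _) (max_lt h1 hn1)
  have hτprim : IsPrimitiveRoot (τ ζ) m := hζ.map_of_injective hτ
  have hvcop : v.Coprime m := by
    have h1 : (u * v).Coprime m := by
      rw [Nat.Coprime, Nat.ModEq.gcd_eq huv, Nat.gcd_one_left]
    exact Nat.Coprime.coprime_mul_left h1
  have hφprim : IsPrimitiveRoot (φ ζ) m := by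
    refine ⟨hφm, fun l hl => ?_⟩
    have h1 : (τ ζ ^ v) ^ l = 1 := by rw [← hωζ, ← map_pow, hl, map_one]
    rw [← pow_mul] at h1
    have h2 := hτprim.dvd_of_pow_eq_one _ h1
    exact (Nat.Coprime.dvd_of_dvd_mul_left hvcop.symm h2)
  have : NeZero m := ⟨by omega⟩
  unfold residueSymbol
  rw [hcard, ← he, ← hq', map_sum]
  by_cases hy : y = 0
  · subst hy
    rw [MulChar.map_zero, zero_pow (Nat.mul_pos hu0 hq'0).ne']
    apply Finset.sum_eq_zero
    intro j _
    rw [if_neg, map_zero]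
    rw [zero_pow hq'0.ne']
    exact (pow_ne_zero _ hφ0).symm
  · have h1 : (y ^ q') ^ m = 1 := by
      rw [← pow_mul, hq'm]
      have := FiniteField.pow_card_sub_one_eq_one y hy
      rw [hcard] at this
      exact this
    obtain ⟨j0, hj0, hj0'⟩ := hφprim.eq_pow_of_pow_eq_one h1
    rw [Finset.sum_eq_single (⟨j0, hj0⟩ : Fin m)]
    · rw [if_pos hj0'.symm, map_pow]
      have h2 : ω y ^ (u * q') = (ω (y ^ q')) ^ u := by
        rw [map_pow, ← pow_mul, mul_comm]
      rw [h2, ← hj0', map_pow, hωζ, ← pow_mul, ← pow_mul]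
      change τ ζ ^ j0 = τ ζ ^ (v * (j0 * u))
      have h3 : v * (j0 * u) ≡ j0 [MOD m] := by
        have h4 : v * (j0 * u) = u * v * j0 := by ring
        rw [h4]
        simpa using huv.mul_right j0
      exact (pow_eq_pow_of_modEq h3 hτm).symm
    · intro j _ hj
      rw [if_neg, map_zero]
      intro h
      apply hj
      apply Fin.ext
      apply hφprim.pow_inj j.2 hj0
      rw [← h, hj0']
    · intro h
      exact absurd (Finset.mem_univ _) h

/-- Reduction of the exponents. -/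
theorem lb_exp {p : ℕ} [hp : Fact p.Prime] {m : ℕ} (hm : 2 ≤ m)
    {u : ℕ} (hu : u.Coprime m) {r : ℕ} {F : Type} [Field F] [Fintype F]
    (hcard : Fintype.card F = p ^ r) (hme : m ∣ p ^ r - 1) (ω : MulChar F (PadicAlgCl p))
    {a : ℕ} (ha : ¬ m ∣ a) (y : F) :
    (ω y ^ a) ^ (u * ((p ^ r - 1) / m)) = (ω ^ ((Fintype.card F - 1) / m * (u * a % m))) y := by
  have hp1 := hp.out.one_lt
  have hr : r ≠ 0 := by
    rintro rfl
    rw [pow_zero] at hcard
    have := Fintype.one_lt_card (α := F)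
    omega
  have hpr : 1 < p ^ r := Nat.one_lt_pow hr hp1
  rw [hcard]
  set e : ℕ := p ^ r - 1 with he
  set q' : ℕ := e / m with hq'
  have hq'm : q' * m = e := Nat.div_mul_cancel hme
  have hq'0 : 0 < q' := Nat.pos_of_ne_zero (by
    rintro h
    rw [h, zero_mul] at hq'm
    omega)
  have hu0 : 0 < u := by
    rcases Nat.eq_zero_or_pos u with h | h
    · rw [h, Nat.coprime_zero_left] at hu
      omega
    · exact h
  have hb0 : 0 < u * a % m := by
    apply Nat.pos_of_ne_zero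
    intro h
    exact ha ((Nat.Coprime.dvd_of_dvd_mul_left hu.symm (Nat.dvd_of_mod_eq_zero h)))
  rw [MulChar.pow_apply' ω (Nat.mul_pos hq'0 hb0).ne', ← pow_mul]
  have hai : a ≠ 0 := by
    intro h
    exact ha (h ▸ dvd_zero m)
  by_cases hz : y = 0
  · rw [hz, MulChar.map_zero, zero_pow, zero_pow (Nat.mul_pos hq'0 hb0).ne']
    exact mul_ne_zero hai (Nat.mul_pos hu0 hq'0).ne'
  · have h0 : ω y ^ e = 1 := by
      rw [← map_pow]
      have h2 : y ^ e = 1 := by
        have := FiniteField.pow_card_sub_one_eq_one y hz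
        rw [hcard] at this
        exact this
      rw [h2, map_one]
    have h1 : a * (u * q') = q' * (u * a % m) + e * (u * a / m) := by
      have h2 := Nat.mod_add_div (u * a) m
      calc a * (u * q') = (u * a) * q' := by ring
        _ = (u * a % m + m * (u * a / m)) * q' := by rw [h2]
        _ = _ := by rw [← hq'm]; ring
    rw [h1, pow_add, pow_mul _ e, h0, one_pow, mul_one]

/-- The local bound. -/
theorem lb_bound {K : Type} [Field K] {p : ℕ} [hp : Fact p.Prime] (hp2 : 2 < p) {m : ℕ}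
    (hm : 2 ≤ m) {ζ : 𝓞 K} (hζ : IsPrimitiveRoot ζ m) {w n k : ℕ} (hk : 1 ≤ k)
    (f : Fin w → Fin 2 → 𝓞 K) (a : Fin w → ℕ) (e : Fin n → 𝓞 K)
    (g : Fin n → Fin (k + 1) → 𝓞 K) (b : Fin n → ℕ)
    (ha : ∀ i, ¬ m ∣ a i) (hb : ∀ j, ¬ m ∣ b j) {u v : ℕ} (hu : u.Coprime m)
    (huv : u * v ≡ 1 [MOD m]) (hsum : k * ∑ j, u * b j % m + ∑ i, u * a i % m = m)
    (hmp : m ∣ p - 1) (τ : 𝓞 K →+* PadicAlgCl p) (hτ : Function.Injective τ)
    {r : ℕ} {F : Type} [Field F] [Fintype F] [Algebra (ZMod p) F]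
    (hcard : Fintype.card F = p ^ r) (φ : 𝓞 K →+* F) (he : ∀ j, φ (e j) ≠ 0)
    {n0 : ℕ} (hn0 : φ ζ = n0) (hn1 : ‖τ ζ ^ v - n0‖ < 1) :
    ‖τ (charSum m k ζ f a e g b φ)‖ ≤ (‖(p : PadicAlgCl p)‖ ^ 2) ^ r := by
  classical
  have hp1 := hp.out.one_lt
  obtain ⟨ω, hω⟩ := te_exists F hcard
  obtain ⟨ξ, hξ, -, -, -, -⟩ := te_zeta p
  have hdeg : SlopeLP.deg p F = r := by
    have h1 : Fintype.card F = p ^ SlopeLP.deg p F := SlopeLP.card_eq (P := p)
    rw [hcard] at h1
    exact (Nat.pow_right_injective hp1 h1).symm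
  have hme : m ∣ p ^ r - 1 := hmp.trans (Nat.sub_one_dvd_pow_sub_one p r)
  have hmain := SlopeLP.slope_plane (P := p) hξ te_norm_p_lt hp2 (F := F) (ω := ω) hω hmp k hk
    (fun i => u * a i % m) (fun j => u * b j % m)
    (fun i => Nat.pos_of_ne_zero fun h => ha i
      (Nat.Coprime.dvd_of_dvd_mul_left hu.symm (Nat.dvd_of_mod_eq_zero h)))
    (fun i => Nat.mod_lt _ (by omega))
    (fun j => Nat.pos_of_ne_zero fun h => hb j
      (Nat.Coprime.dvd_of_dvd_mul_left hu.symm (Nat.dvd_of_mod_eq_zero h)))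
    (fun j => Nat.mod_lt _ (by omega)) hsum
    (fun i => φ (f i 0)) (fun i => φ (f i 1)) (fun j l => φ (g j l) / φ (e j))
  rw [hdeg, pow_mul] at hmain
  set C : PadicAlgCl p := ∏ j, (ω ^ ((Fintype.card F - 1) / m * (u * b j % m))) (φ (e j)) with hC
  have hC1 : ‖C‖ ≤ 1 := by
    rw [hC, norm_prod]
    apply Finset.prod_le_one (fun _ _ => norm_nonneg _)
    intro j _
    exact (gn_unit_norm _ (he j)).le
  have hsum2 : τ (charSum m k ζ f a e g b φ) = C *
      ∑ x : Fin 3 → F, (∏ i, (ω ^ ((Fintype.card F - 1) / m * (u * a i % m)))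
        (φ (f i 0) * x 0 + φ (f i 1) * x 1)) *
      ∏ j, (ω ^ ((Fintype.card F - 1) / m * (u * b j % m)))
        (x 2 - ∑ l : Fin (k + 1), φ (g j l) / φ (e j) * (x 0 ^ (l : ℕ) * x 1 ^ (k - (l : ℕ)))) := by
    unfold charSum
    rw [map_sum, Finset.mul_sum]
    apply Finset.sum_congr rfl
    intro x _
    rw [lb_symbol hm hζ hu huv hmp τ hτ hcard φ hn0 hn1 hω, map_mul, map_prod, map_prod, mul_pow,
      ← Finset.prod_pow, ← Finset.prod_pow]
    have h1 : ∀ i, ω ((φ (f i 0) * x 0 + φ (f i 1) * x 1) ^ a i) ^ (u * ((p ^ r - 1) / m)) =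
        (ω ^ ((Fintype.card F - 1) / m * (u * a i % m))) (φ (f i 0) * x 0 + φ (f i 1) * x 1) := by
      intro i
      rw [map_pow, lb_exp hm hu hcard hme ω (ha i)]
    have h2 : ∀ j, ω ((φ (e j) * x 2 - ∑ l : Fin (k + 1),
          φ (g j l) * (x 0 ^ (l : ℕ) * x 1 ^ (k - (l : ℕ)))) ^ b j) ^ (u * ((p ^ r - 1) / m)) =
        (ω ^ ((Fintype.card F - 1) / m * (u * b j % m))) (φ (e j)) *
        (ω ^ ((Fintype.card F - 1) / m * (u * b j % m))) (x 2 - ∑ l : Fin (k + 1),
          φ (g j l) / φ (e j) * (x 0 ^ (l : ℕ) * x 1 ^ (k - (l : ℕ)))) := by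
      intro j
      rw [map_pow, lb_exp hm hu hcard hme ω (hb j), ← map_mul]
      congr 1
      rw [mul_sub, Finset.mul_sum]
      congr 1
      apply Finset.sum_congr rfl
      intro l _
      field_simp [he j]
    rw [Finset.prod_congr rfl fun i _ => h1 i, Finset.prod_congr rfl fun j _ => h2 j,
      Finset.prod_mul_distrib, hC]
    ring
  rw [hsum2, norm_mul]
  calc ‖C‖ * _ ≤ 1 * (‖(p : PadicAlgCl p)‖ ^ 2) ^ r :=
        mul_le_mul hC1 hmain (norm_nonneg _) zero_le_one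
    _ = _ := one_mul _

end Pool.Agent.TP
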