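import Pool.Agent.Lib_helper61.TP.Core
import Pool.Agent.Lib_helper61.TP.LB

/-!
# No Tate classes for covers of the weighted plane
-/

set_option autoImplicit false

namespace Pool.Agent.TP

open Finset NumberField Pool.Agent.TT

theorem bad_prime {K : Type} [Field K] [NumberField K] {e : 𝓞 K} (he : e ≠ 0) {p : ℕ}
    [Fact p.Prime] (hp : Ideal.absNorm (Ideal.span {e}) < p) {F : Type} [Field F] [CharP F p]
    (φ : 𝓞 K →+* F) : φ e ≠ 0 := by
  intro h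
  have h1 : ((Ideal.absNorm (Ideal.span {e}) : ℕ) : 𝓞 K) ∈ Ideal.span {e} :=
    Ideal.absNorm_mem _
  obtain ⟨c, hc⟩ := Ideal.mem_span_singleton'.mp h1
  have h2 : ((Ideal.absNorm (Ideal.span {e}) : ℕ) : F) = 0 := by
    rw [← map_natCast φ, ← hc, map_mul, h, mul_zero]
  rw [CharP.cast_eq_zero_iff F p] at h2
  have h3 : Ideal.absNorm (Ideal.span {e}) ≠ 0 := by
    intro h4
    rw [Ideal.absNorm_eq_zero_iff, Ideal.span_singleton_eq_bot] at h4
    exact he h4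
  exact absurd (Nat.le_of_dvd (Nat.pos_of_ne_zero h3) h2) (not_le.mpr hp)

theorem main {K : Type} [Field K] [NumberField K] [Algebra K Qbar] {m : ℕ} (hm : 2 ≤ m)
    {ζ : 𝓞 K} (hζ : IsPrimitiveRoot ζ m) {w n k : ℕ} (hk : 1 ≤ k)
    (f : Fin w → Fin 2 → 𝓞 K) (a : Fin w → ℕ) (e : Fin n → 𝓞 K)
    (g : Fin n → Fin (k + 1) → 𝓞 K) (b : Fin n → ℕ)
    (ha : ∀ i, ¬ m ∣ a i) (hb : ∀ j, ¬ m ∣ b j) (he : ∀ j, e j ≠ 0) {u : ℕ} (hu : u.Coprime m)
    (hsum : k * ∑ j, u * b j % m + ∑ i, u * a i % m = m)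
    {ℓ : ℕ} [hℓ : Fact ℓ.Prime] (ι : K →+* PadicAlgCl ℓ)
    {V : Type} [AddCommGroup V] [Module (PadicAlgCl ℓ) V] [FiniteDimensional (PadicAlgCl ℓ) V]
    (ρ : Representation (PadicAlgCl ℓ) (Qbar ≃ₐ[K] Qbar) V)
    (hρ : HasTraces ρ ι m k ζ f a e g b)
    (H : Subgroup (Qbar ≃ₐ[K] Qbar)) (hH : IsOpen (H : Set (Qbar ≃ₐ[K] Qbar)))
    (W₁ W₂ : Submodule (PadicAlgCl ℓ) V) (hW : W₁ ≤ W₂)
    (hT : ∀ σ ∈ H, ∀ x ∈ W₂, cyc ℓ σ • ρ σ x - x ∈ W₁) : W₂ ≤ W₁ := by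
  classical
  obtain ⟨v, huv⟩ : ∃ v, u * v ≡ 1 [MOD m] := by
    obtain ⟨v, _, hv⟩ := Nat.exists_mul_mod_eq_one_of_coprime hu (by omega)
    exact ⟨v, by rw [Nat.ModEq, hv, Nat.mod_eq_of_lt (by omega)]⟩
  have hvcop : v.Coprime m := by
    have h1 : (u * v).Coprime m := by
      rw [Nat.Coprime, Nat.ModEq.gcd_eq huv, Nat.gcd_one_left]
    exact Nat.Coprime.coprime_mul_left h1
  set N : ℕ := ∑ j, Ideal.absNorm (Ideal.span {e j}) with hN
  refine core (k := 1) (j := 1) hm hζ hvcop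
    (fun F _ _ φ => charSum m k ζ f a e g b φ) (Finset.range (N + 3)) ?_ ι ρ ?_ H hH W₁ W₂ hW ?_
  · intro p hp hpB hmp
    rw [Finset.mem_range, not_lt] at hpB
    have hp0 : 0 < ‖(p : PadicAlgCl p)‖ := by
      rw [te_norm_p]
      have := hp.out.pos
      positivity
    have hp1 : ‖(p : PadicAlgCl p)‖ < 1 := te_norm_p_lt
    refine ⟨‖(p : PadicAlgCl p)‖ ^ 2, by positivity, ?_, ?_⟩
    · exact pow_lt_pow_right_of_lt_one₀ hp0 hp1 (by norm_num)
    · intro τ hτ n0 hn1 r hr F _ _ _ φ hcard hn0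
      have hch : CharP F p := by
        exact charP_of_injective_algebraMap (algebraMap (ZMod p) F).injective p
      refine lb_bound (by omega) hm hζ hk f a e g b ha hb hu huv hsum hmp τ hτ hcard φ ?_ hn0 hn1
      intro j
      refine bad_prime (he j) (p := p) ?_ φ
      have h1 : Ideal.absNorm (Ideal.span {e j}) ≤ N :=
        Finset.single_le_sum (f := fun j => Ideal.absNorm (Ideal.span {e j}))
          (fun _ _ => Nat.zero_le _) (Finset.mem_univ j)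
      omega
  · simp only [pow_one]
    exact hρ
  · intro σ hσ x hx
    rw [pow_one]
    exact hT σ hσ x hx

end Pool.Agent.TP
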